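import Pool.Agent.MWGR.StmtsF

/-!
# Row ARP of the table mwgr: a modulus from the prime factors
-/

namespace Pool.Agent.MWGR.H43

open Pool.Agent.MWGR

/-- row ARP -/
theorem arp : ArpStmt := by
  classical
  intro n g hn hg P
  have hg0 : g ≠ 0 := by omega
  refine ⟨∏ p ∈ n.primeFactors.filter P, p ^ (g.factorization p + 1), ?_, ?_⟩
  · intro m hm h
    apply Finset.prod_dvd_of_isRelPrime
    · intro p hp q hq hpq
      have hp1 : p.Prime := (Nat.mem_primeFactors.1 (Finset.mem_filter.1 hp).1).1
      have hq1 : q.Prime := (Nat.mem_primeFactors.1 (Finset.mem_filter.1 hq).1).1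
      exact Nat.coprime_iff_isRelPrime.1
        (Nat.Coprime.pow _ _ ((Nat.coprime_primes hp1 hq1).2 hpq))
    · intro p hp
      obtain ⟨hp1, hP⟩ := Finset.mem_filter.1 hp
      obtain ⟨hpp, hpn, -⟩ := Nat.mem_primeFactors.1 hp1
      have h1 := h p hpp hpn hP
      push Not at h1
      obtain ⟨e, he1, he2⟩ := h1
      rw [hpp.pow_dvd_iff_le_factorization hg0] at he2
      exact (pow_dvd_pow p (by omega)).trans he1
  · intro c m hm h hc
    rw [Nat.dvd_iff_prime_pow_dvd_dvd]
    intro p k hp hk
    rcases Nat.eq_zero_or_pos k with h0 | h0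
    · rw [h0, pow_zero]; exact one_dvd g
    have h1 : p ∣ m := ((dvd_pow_self p (by omega)).trans hk).trans (Nat.gcd_dvd_right c m)
    by_contra h2
    have h3 : P p := by
      by_contra h4
      exact h p hp (h1.trans hm) h4 h1
    rw [hp.pow_dvd_iff_le_factorization hg0] at h2
    have h5 : p ^ (g.factorization p + 1) ∣
        ∏ p ∈ n.primeFactors.filter P, p ^ (g.factorization p + 1) :=
      Finset.dvd_prod_of_mem (fun p => p ^ (g.factorization p + 1))
        (Finset.mem_filter.2 ⟨Nat.mem_primeFactors.2 ⟨hp, h1.trans hm, by omega⟩, h3⟩)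
    have h6 : p ^ (g.factorization p + 1) ∣ c :=
      ((pow_dvd_pow p (by omega)).trans hk).trans (Nat.gcd_dvd_left c m)
    have h7 := ((hc.of_dvd h5).dvd_iff dvd_rfl).1 h6
    rw [hp.pow_dvd_iff_le_factorization hg0] at h7
    omega

end Pool.Agent.MWGR.H43
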