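import Pool.Agent.MWGR.StmtsN
import Pool.Agent.MWGR.Mono

/-!
# Row TS2 of the table mwgr: exchange of two light letters with the pattern `a..b` or `b..a`
-/

namespace Pool.Agent.MWGR.H43

open Pool.Agent.Helper14_MV Pool.Agent.Helper2_MV Pool.Agent.MVO Pool.Agent.MWL Pool.Agent.MWS
  Pool.Agent.MWH Pool.Agent.MWGR

/-- a light letter occurs in a later block -/
theorem occ {n k : ℕ} {B B' : ℕ → List ℕ} (hF : Fam n k B B') {i a : ℕ} (hi : i ≤ k)
    (ha : (B i).count a = 1) : ∃ j, i < j ∧ j ≤ k ∧ a ∈ B j := by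
  have hai : a ∈ B i := List.count_pos_iff.1 (by omega)
  have hns := hF.ok.ok i hi a hai
  have hml := hF.ok.ml i hi a hai
  by_contra hcon
  push Not at hcon
  have h1 : deg k (fun j => (B j).count a) = (B i).count a := by
    unfold deg
    refine Finset.sum_eq_single i ?_ ?_
    · intro j hj hji
      have hjk : j ≤ k := by
        have := Finset.mem_range.1 hj
        omega
      rcases Nat.lt_or_ge j i with h2 | h2
      · by_contra h3
        have h4 : 2 ≤ ty B a i := hF.gm a hns j i h2 hi h3 (by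
          show (B i).count a ≠ 0
          omega)
        have h5 : ty B a i = 1 := ha
        omega
      · exact List.count_eq_zero.2 (hcon j (by omega) hjk)
    · intro h
      exact absurd (Finset.mem_range.2 (by omega)) h
  omega

/-- the sublist of two letters -/
theorem two (hSQL : SqlStmt) {k i ja jb a b : ℕ} {B : ℕ → List ℕ} (hi : i ≤ k) (h1 : i < ja)
    (h2 : ja ≤ k) (h3 : a ∈ B ja) (h4 : i < jb) (h5 : jb ≤ k) (h6 : b ∈ B jb) (h7 : ja < jb) :
    [a, b].Sublist (suf B i (k - i)) := by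
  have h := hSQL k i 2 B (fun t => if t = 0 then ja else jb) (fun t => if t = 0 then a else b) hi
    (by
      intro t ht
      rcases Nat.eq_zero_or_pos t with h0 | h0
      · subst h0
        exact ⟨h1, h2, h3⟩
      · have ht1 : t = 1 := by omega
        subst ht1
        exact ⟨h4, h5, h6⟩)
    (by
      intro t ht
      have h0 : t = 0 := by omega
      subst h0
      exact h7)
  exact h

/-- row TS2 -/
theorem ts2 (hNFK : NfkStmt) (hKAD : KadStmt) (hSQL : SqlStmt) (hSW0 : Sw0Stmt) (hMSW : MswStmt)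
    (hCRD : CrdStmt) (hDMA : DmaStmt) : Ts2Stmt := by
  intro n β hR k B B' hF i a b hi hab ha hb h1 h0 hrg
  refine ⟨[Ed.ka], ?_, ?_⟩
  · intro e he
    rw [List.mem_singleton] at he
    rw [he]
    trivial
  · intro θ hθ _
    have hBG : BG n (RR θ) := bg_mono hR.toBG hθ
    refine ⟨?_, ?_⟩
    · intro hr e he
      rw [List.mem_singleton] at he
      rw [he]
      exact hNFK n k θ B B' hBG hF hr i a b hi hab ha hb h1 h0 hrg
    · intro hE
      have hka : Ka (RR θ) := hE Ed.ka (List.mem_singleton.2 rfl)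
      obtain ⟨hAD, hD1⟩ := hKAD n θ hBG.pos hka
      obtain ⟨⟨g, hg, hg'⟩, -⟩ := hDMA n θ hBG
      have hD : ∀ d, Dm n d (RR θ) := fun d => (hg' d).2 (((hg' 1).1 hD1).trans (one_dvd d))
      intro H pr haH hbH hH
      obtain ⟨ja, hja1, hja2, hja3⟩ := occ hF hi ha
      obtain ⟨jb, hjb1, hjb2, hjb3⟩ := occ hF hi hb
      have hsub : [a, b].Sublist (suf B i (k - i)) ∨ [b, a].Sublist (suf B i (k - i)) := by
        rcases hrg with h | h
        · exact Or.inl (two hSQL hi hja1 hja2 hja3 hjb1 hjb2 hjb3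
            (h jb ja hjb1 hjb2 hja1 hja2 hjb3 hja3))
        · exact Or.inr (two hSQL hi hjb1 hjb2 hjb3 hja1 hja2 hja3
            (h ja jb hja1 hja2 hjb1 hjb2 hja3 hjb3))
      refine hMSW n θ hBG H pr (suf B i (k - i)) a b n (gap n (B i) a b) haH hbH
        (hSW0 n θ hBG H pr _ a b haH hbH (hAD H pr _ a b hsub)) ?_
      intro x hx
      refine Or.inl ?_
      intro s s'
      refine hCRD n θ hBG (s + (n - 1) * s') (hD _) H pr _ x a haH s s' ?_
      obtain ⟨m, rfl⟩ : ∃ m, n = m + 1 := ⟨n - 1, by have := hBG.pos; omega⟩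
      have h5 : s' + (s + (m + 1 - 1) * s') = s + (m + 1) * s' := by
        rw [Nat.add_sub_cancel]; ring
      rw [h5]
      exact (Nat.modEq_iff_dvd' (Nat.le_add_right _ _)).2 ⟨s', by
        rw [Nat.add_sub_cancel_left]⟩

end Pool.Agent.MWGR.H43
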