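import Pool.Agent.MWGR.StmtsA

/-!
# Block MWGR, row INL: insertion of `x^(n m)` between two occurrences of a heavy letter
-/

namespace Pool.Agent.MWGR.H43

open Pool.Agent.Helper14_MV Pool.Agent.Helper2_MV Pool.Agent.MVO Pool.Agent.MWL Pool.Agent.MWS
  Pool.Agent.MWH
open Pool.Agent.MWGR

theorem cnt_ins (A D : List ℕ) (x k c : ℕ) :
    (A ++ (List.replicate k x ++ D)).count c = (A ++ D).count c + if x = c then k else 0 := by
  rw [List.count_append, List.count_append, List.count_append, List.count_replicate]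
  by_cases h : x = c
  · simp [h]; ring
  · simp [h]

theorem ok_ins {H pre suf A D : List ℕ} {x : ℕ} (k : ℕ) (h : Ok1 H pre suf (A ++ D)) (hx : x ∈ H)
    (_hA : x ∈ A) : Ok1 H pre suf (A ++ (List.replicate k x ++ D)) := by
  refine ⟨h.nd, ?_, ?_⟩
  · intro y hy
    rw [cnt_ins]
    have := h.hv y hy
    omega
  · intro a ha haH
    have hxa : ¬ x = a := fun e => haH (e ▸ hx)
    have ha' : a ∈ A ++ D := by
      rw [List.mem_append, List.mem_append] at ha
      rw [List.mem_append]
      rcases ha with ha | ha | ha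
      · exact Or.inl ha
      · exact absurd (List.eq_of_mem_replicate ha).symm hxa
      · exact Or.inr ha
    rw [cnt_ins, if_neg hxa]
    exact h.lt a ha' haH

theorem mul_of {H pre suf l : List ℕ} (h : Ok1 H pre suf l) {c : ℕ} (hc : c ∈ l) :
    2 ≤ (Wd pre suf l).count c := by
  unfold Wd
  rw [List.count_append, List.count_append]
  by_cases hH : c ∈ H
  · have := h.hv c hH
    omega
  · have h1 := h.lt c hc hH
    have h2 := List.count_pos_iff.2 h1.2.2
    omega

/-- one step -/
theorem one_step {n : ℕ} {β : FIC} (hB : BG n (RR β)) {H pre suf A D : List ℕ} {x : ℕ}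
    (h : Ok1 H pre suf (A ++ D)) (hA : x ∈ A) (hD : x ∈ D) :
    RR β (Wd pre suf (A ++ D)) (Wd pre suf (A ++ (List.replicate n x ++ D))) := by
  obtain ⟨A1, A2, hA'⟩ := List.append_of_mem hA
  obtain ⟨D1, D2, hD'⟩ := List.append_of_mem hD
  have key := hB.it (pre ++ A1) A2 D1 (D2 ++ suf) x
  have e1 : (pre ++ A1) ++ x :: (A2 ++ (D1 ++ x :: (D2 ++ suf))) = Wd pre suf (A ++ D) := by
    unfold Wd
    rw [hA', hD']
    simp
  have e2 : (pre ++ A1) ++ x :: (A2 ++ (List.replicate n x ++ (D1 ++ x :: (D2 ++ suf)))) =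
      Wd pre suf (A ++ (List.replicate n x ++ D)) := by
    unfold Wd
    rw [hA', hD']
    simp
  rw [e1, e2] at key
  refine key ?_
  intro c hc
  refine mul_of h ?_
  rw [hA', hD']
  rw [List.mem_append] at hc
  rcases hc with hc | hc
  · simp [hc]
  · simp [hc]

/-- **INL** -/
theorem inl : InlStmt := by
  intro n β hB H pre suf A D x m h hx hA hD
  refine ⟨ok_ins (n * m) h hx hA, ?_⟩
  induction m with
  | zero => exact RR.refl _
  | succ m ih =>
    have h1 := one_step hB (ok_ins (n * m) h hx hA) hA
      (List.mem_append_right (List.replicate (n * m) x) hD)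
    have e : List.replicate n x ++ (List.replicate (n * m) x ++ D) =
        List.replicate (n * (m + 1)) x ++ D := by
      rw [← List.append_assoc, ← List.replicate_add]
      congr 2
      ring
    rw [e] at h1
    exact β.trans ih h1

end Pool.Agent.MWGR.H43
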